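import Pool.Agent.H10.ALG.Targets

/-!
# MP_64fb07_lc: board `alg_modules`, row AMN (amplification, numbers)
-/

set_option autoImplicit false

namespace Pool.Agent.H75.ALG

open Pool.Agent.H10.ALG

theorem term_le (K a b : ℕ) (q : ℝ) (h0 : 0 ≤ q) (h1 : q ≤ 1 / 3) (hab : a + b = 12 * K)
    (ha : 6 * K ≤ a) : q ^ a * (1 - q) ^ b ≤ (2 / 9 : ℝ) ^ (6 * K) := by
  obtain ⟨d, rfl⟩ := Nat.exists_eq_add_of_le ha
  have hb : 6 * K = d + b := by omega
  have h2 : q ≤ 1 - q := by linarith
  have h3 : 0 ≤ 1 - q := by linarith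
  have h4 : q ^ d ≤ (1 - q) ^ d := pow_le_pow_left₀ h0 h2 d
  have h5 : q * (1 - q) ≤ 2 / 9 := by nlinarith
  calc q ^ (6 * K + d) * (1 - q) ^ b = q ^ (6 * K) * (1 - q) ^ b * q ^ d := by
        rw [pow_add]; ring
    _ ≤ q ^ (6 * K) * (1 - q) ^ b * (1 - q) ^ d := mul_le_mul_of_nonneg_left h4 (by positivity)
    _ = (q * (1 - q)) ^ (6 * K) := by
        rw [mul_assoc, ← pow_add, add_comm b d, ← hb, mul_pow]
    _ ≤ (2 / 9) ^ (6 * K) := pow_le_pow_left₀ (mul_nonneg h0 h3) h5 _

theorem num_le (K : ℕ) : (2 : ℝ) ^ (12 * K) * (2 / 9) ^ (6 * K) ≤ (1 / 2) ^ K := by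
  rw [pow_mul, pow_mul, ← mul_pow]
  refine pow_le_pow_left₀ (by positivity) ?_ K
  norm_num

theorem sum_le (K : ℕ) (c : Finset ℕ → ℝ)
    (h : ∀ G ∈ (Finset.range (12 * K)).powerset, c G ≤ (2 / 9 : ℝ) ^ (6 * K)) :
    ∑ G ∈ (Finset.range (12 * K)).powerset, c G ≤ (1 / 2) ^ K := by
  refine le_trans (Finset.sum_le_card_nsmul _ _ _ h) ?_
  rw [Finset.card_powerset, Finset.card_range, nsmul_eq_mul, Nat.cast_pow, Nat.cast_ofNat]
  exact num_le K

theorem pf_AMN : T_AMN := by
  have hnn : ∀ (m : ℕ) (p : ℝ), 0 ≤ p → p ≤ 1 → ∀ G : Finset ℕ,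
      0 ≤ p ^ G.card * (1 - p) ^ (m - G.card) := fun m p h0 h1 G =>
    mul_nonneg (pow_nonneg h0 _) (pow_nonneg (by linarith) _)
  have htot : ∀ (m : ℕ) (p : ℝ), ∑ G ∈ (Finset.range m).powerset,
      p ^ G.card * (1 - p) ^ (m - G.card) = 1 := by
    intro m p
    have h := Finset.sum_pow_mul_eq_add_pow p (1 - p) (Finset.range m)
    rw [Finset.card_range] at h
    rw [h, add_sub_cancel, one_pow]
  refine ⟨fun m p h0 h1 => ⟨?_, ?_⟩, fun K p h0 h1 => ?_, fun K p hK h0 h1 => ?_⟩
  · refine Finset.sum_nonneg fun G _ => ?_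
    split_ifs
    · exact hnn m p h0 h1 G
    · exact le_refl _
  · rw [← htot m p]
    refine Finset.sum_le_sum fun G _ => ?_
    split_ifs
    · exact le_refl _
    · exact hnn m p h0 h1 G
  · refine sum_le K _ fun G hG => ?_
    have hc : G.card ≤ 12 * K := by
      have := Finset.card_le_card (Finset.mem_powerset.1 hG)
      rwa [Finset.card_range] at this
    split_ifs with h
    · exact term_le K G.card (12 * K - G.card) p h0 h1 (by omega) (by omega)
    · positivity
  · have h2 : amp (12 * K) p + ∑ G ∈ (Finset.range (12 * K)).powerset,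
        (if 12 * K ≤ 2 * G.card then 0 else p ^ G.card * (1 - p) ^ (12 * K - G.card)) = 1 := by
      unfold amp
      rw [← Finset.sum_add_distrib]
      refine Eq.trans ?_ (htot (12 * K) p)
      refine Finset.sum_congr rfl fun G _ => ?_
      split_ifs
      · rw [add_zero]
      · rw [zero_add]
    have h3 : ∑ G ∈ (Finset.range (12 * K)).powerset,
        (if 12 * K ≤ 2 * G.card then 0 else p ^ G.card * (1 - p) ^ (12 * K - G.card)) ≤
        (1 / 2 : ℝ) ^ K := by
      refine sum_le K _ fun G hG => ?_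
      have hc : G.card ≤ 12 * K := by
        have := Finset.card_le_card (Finset.mem_powerset.1 hG)
        rwa [Finset.card_range] at this
      split_ifs with h
      · positivity
      · have h5 := term_le K (12 * K - G.card) G.card (1 - p) (by linarith) (by linarith)
          (by omega) (by omega)
        rw [sub_sub_cancel] at h5
        rw [mul_comm]
        exact h5
    have h4 : (1 / 2 : ℝ) ^ K ≤ 1 / 2 := by
      have := pow_le_pow_of_le_one (by norm_num : (0 : ℝ) ≤ 1 / 2) (by norm_num) hK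
      rwa [pow_one] at this
    linarith

end Pool.Agent.H75.ALG
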