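import Pool.Agent.H10.ALG.Targets

/-!
# MP_64fb07_lc: board `alg_modules`, row CRX (corruption in one block)
-/

set_option autoImplicit false

namespace Pool.Agent.H75.ALG

open Pool.Agent.H10.ALG

section

variable {X B : Type} [Fintype X] [DecidableEq X] [Fintype B] [DecidableEq B]

/-- weight of the blocks other than the block `x` -/
noncomputable def rest (J : Finset X) (x : X) (r : {y : X // y ≠ x} → Blk B) : ℝ :=
  ∏ y : {y : X // y ≠ x}, if (y : X) ∈ J then mu1 (r y) else mu0 (r y)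

/-- the configuration with the block `p` at `x` and the other blocks `r` -/
def glue (x : X) (p : Blk B) (r : {y : X // y ≠ x} → Blk B) : Cf X B :=
  (Equiv.funSplitAt x (Blk B)).symm (p, r)

omit [Fintype X] [Fintype B] [DecidableEq B] in
theorem glue_self (x : X) (p : Blk B) (r : {y : X // y ≠ x} → Blk B) : glue x p r x = p := by
  simp [glue]

omit [Fintype X] [Fintype B] [DecidableEq B] in
theorem glue_ne (x : X) (p : Blk B) (r : {y : X // y ≠ x} → Blk B) (y : {y : X // y ≠ x}) :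
    glue x p r y = r y := by
  obtain ⟨y, hy⟩ := y
  simp [glue, hy]

omit [DecidableEq B] in
theorem sum_glue (x : X) (h : Cf X B → ℝ) :
    ∑ S, h S = ∑ r : {y : X // y ≠ x} → Blk B, ∑ p : Blk B, h (glue x p r) := by
  rw [← Equiv.sum_comp (Equiv.funSplitAt x (Blk B)).symm h, Fintype.sum_prod_type,
    Finset.sum_comm]
  rfl

theorem muJ_glue0 (J : Finset X) (x : X) (hx : x ∉ J) (p : Blk B)
    (r : {y : X // y ≠ x} → Blk B) : muJ J (glue x p r) = rest J x r * mu0 p := by
  unfold muJ rest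
  rw [Fintype.prod_eq_mul_prod_subtype_ne _ x, if_neg hx, glue_self, mul_comm]
  congr 1
  refine Finset.prod_congr rfl fun y _ => ?_
  rw [glue_ne]

theorem muJ_glue1 (J : Finset X) (x : X) (p : Blk B)
    (r : {y : X // y ≠ x} → Blk B) : muJ (insert x J) (glue x p r) = rest J x r * mu1 p := by
  unfold muJ rest
  rw [Fintype.prod_eq_mul_prod_subtype_ne _ x, if_pos (Finset.mem_insert_self x J), glue_self,
    mul_comm]
  congr 1
  refine Finset.prod_congr rfl fun y _ => ?_
  rw [glue_ne]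
  by_cases h : (y : X) ∈ J
  · rw [if_pos h, if_pos (Finset.mem_insert_of_mem h)]
  · rw [if_neg h, if_neg fun h' => ?_]
    rcases Finset.mem_insert.1 h' with h'' | h''
    · exact y.2 h''
    · exact h h''

theorem rest_nonneg [Nonempty B] (hMUP : T_MUP) (J : Finset X) (x : X)
    (r : {y : X // y ≠ x} → Blk B) : 0 ≤ rest J x r := by
  obtain ⟨h0, h1, -⟩ := hMUP B
  refine Finset.prod_nonneg fun y _ => ?_
  split_ifs
  · exact h1 _
  · exact h0 _

theorem sum_rest [Nonempty B] (hMUP : T_MUP) (J : Finset X) (x : X) :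
    ∑ r : {y : X // y ≠ x} → Blk B, rest J x r = 1 := by
  obtain ⟨-, -, h0, h1, -⟩ := hMUP B
  have h := Fintype.prod_sum (ι := {y : X // y ≠ x}) (κ := fun _ => Blk B)
    (fun y (p : Blk B) => if (y : X) ∈ J then mu1 p else mu0 p)
  have h2 : ∏ y : {y : X // y ≠ x}, ∑ p : Blk B,
      (if (y : X) ∈ J then mu1 p else mu0 p) = 1 := by
    refine Finset.prod_eq_one fun y _ => ?_
    by_cases hy : (y : X) ∈ J
    · simp only [hy, if_true]; exact h1
    · simp only [hy, if_false]; exact h0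
  rw [h] at h2
  exact h2

open Classical in
/-- the indicator of a rectangle -/
noncomputable def ind (P Q : (X → Finset B) → Prop) (S : Cf X B) : ℝ :=
  if P (fun y => (S y).1) ∧ Q (fun y => (S y).2) then 1 else 0

open Classical in
/-- sections of a set of first components -/
noncomputable def sec1 (P : (X → Finset B) → Prop) (x : X) (r : {y : X // y ≠ x} → Blk B) :
    Finset (Finset B) :=
  Finset.univ.filter fun a => P (fun y => (glue x (a, ∅) r y).1)

open Classical in
/-- sections of a set of second components -/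
noncomputable def sec2 (Q : (X → Finset B) → Prop) (x : X) (r : {y : X // y ≠ x} → Blk B) :
    Finset (Finset B) :=
  Finset.univ.filter fun a => Q (fun y => (glue x (∅, a) r y).2)

omit [Fintype X] [Fintype B] [DecidableEq B] in
theorem fst_glue (x : X) (p : Blk B) (r : {y : X // y ≠ x} → Blk B) (y : X) :
    (glue x (p.1, ∅) r y).1 = (glue x p r y).1 := by
  by_cases hy : y = x
  · subst hy
    rw [glue_self, glue_self]
  · rw [glue_ne x (p.1, ∅) r ⟨y, hy⟩, glue_ne x p r ⟨y, hy⟩]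

omit [Fintype X] [Fintype B] [DecidableEq B] in
theorem snd_glue (x : X) (p : Blk B) (r : {y : X // y ≠ x} → Blk B) (y : X) :
    (glue x (∅, p.2) r y).2 = (glue x p r y).2 := by
  by_cases hy : y = x
  · subst hy
    rw [glue_self, glue_self]
  · rw [glue_ne x (∅, p.2) r ⟨y, hy⟩, glue_ne x p r ⟨y, hy⟩]

omit [Fintype X] [DecidableEq B] in
theorem mem_sec1 (P : (X → Finset B) → Prop) (x : X) (r : {y : X // y ≠ x} → Blk B)
    (a : Finset B) : a ∈ sec1 P x r ↔ P (fun y => (glue x (a, ∅) r y).1) := by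
  classical
  unfold sec1
  rw [Finset.mem_filter]
  exact ⟨fun h => h.2, fun h => ⟨Finset.mem_univ _, h⟩⟩

omit [Fintype X] [DecidableEq B] in
theorem mem_sec2 (Q : (X → Finset B) → Prop) (x : X) (r : {y : X // y ≠ x} → Blk B)
    (a : Finset B) : a ∈ sec2 Q x r ↔ Q (fun y => (glue x (∅, a) r y).2) := by
  classical
  unfold sec2
  rw [Finset.mem_filter]
  exact ⟨fun h => h.2, fun h => ⟨Finset.mem_univ _, h⟩⟩

omit [Fintype X] in
theorem ind_glue (P Q : (X → Finset B) → Prop) (x : X) (p : Blk B)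
    (r : {y : X // y ≠ x} → Blk B) :
    ind P Q (glue x p r) = if p ∈ sec1 P x r ×ˢ sec2 Q x r then 1 else 0 := by
  unfold ind
  have h1 : (fun y => (glue x (p.1, ∅) r y).1) = fun y => (glue x p r y).1 :=
    funext fun y => fst_glue x p r y
  have h2 : (fun y => (glue x (∅, p.2) r y).2) = fun y => (glue x p r y).2 :=
    funext fun y => snd_glue x p r y
  have h : p ∈ sec1 P x r ×ˢ sec2 Q x r ↔
      P (fun y => (glue x p r y).1) ∧ Q (fun y => (glue x p r y).2) := by
    rw [Finset.mem_product, mem_sec1, mem_sec2, h1, h2]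
  by_cases hp : p ∈ sec1 P x r ×ˢ sec2 Q x r
  · rw [if_pos hp, if_pos (h.1 hp)]
  · rw [if_neg hp, if_neg fun h' => hp (h.2 h')]

theorem Ex_ind (K : Finset X) (m : Blk B → ℝ) (J : Finset X) (x : X)
    (hm : ∀ p (r : {y : X // y ≠ x} → Blk B), muJ K (glue x p r) = rest J x r * m p)
    (P Q : (X → Finset B) → Prop) :
    Ex K (ind P Q) = ∑ r : {y : X // y ≠ x} → Blk B,
      rest J x r * ∑ p ∈ sec1 P x r ×ˢ sec2 Q x r, m p := by
  unfold Ex
  rw [sum_glue x]
  refine Finset.sum_congr rfl fun r _ => ?_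
  rw [Finset.mul_sum, ← Finset.sum_filter_add_sum_filter_not Finset.univ
    (fun p => p ∈ sec1 P x r ×ˢ sec2 Q x r)]
  have h1 : ∑ p ∈ Finset.univ.filter (fun p => p ∉ sec1 P x r ×ˢ sec2 Q x r),
      muJ K (glue x p r) * ind P Q (glue x p r) = 0 := by
    refine Finset.sum_eq_zero fun p hp => ?_
    rw [ind_glue, if_neg (Finset.mem_filter.1 hp).2, mul_zero]
  rw [h1, add_zero, Finset.filter_univ_mem]
  refine Finset.sum_congr rfl fun p hp => ?_
  rw [ind_glue, if_pos hp, mul_one, hm]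

theorem one_rect [Nonempty B] (hCOR : T_COR) (hMUP : T_MUP) (P Q : (X → Finset B) → Prop)
    (J : Finset X) (x : X) (T : ℕ) (hx : x ∉ J) (hT : 440 * (T + 1) ≤ Fintype.card B) :
    Ex J (ind P Q) / 100 - (1 / 2) ^ T ≤ Ex (insert x J) (ind P Q) := by
  rw [Ex_ind J mu0 J x (fun p r => muJ_glue0 J x hx p r) P Q,
    Ex_ind (insert x J) mu1 J x (fun p r => muJ_glue1 J x p r) P Q]
  have h1 : ∀ r : {y : X // y ≠ x} → Blk B,
      rest J x r * ((∑ p ∈ sec1 P x r ×ˢ sec2 Q x r, mu0 p) / 100 - (1 / 2) ^ T) ≤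
      rest J x r * ∑ p ∈ sec1 P x r ×ˢ sec2 Q x r, mu1 p := fun r =>
    mul_le_mul_of_nonneg_left (hCOR B _ _ T hT) (rest_nonneg hMUP J x r)
  have h2 := Finset.sum_le_sum fun r (_ : r ∈ Finset.univ) => h1 r
  have h3 : ∑ r : {y : X // y ≠ x} → Blk B,
      rest J x r * ((∑ p ∈ sec1 P x r ×ˢ sec2 Q x r, mu0 p) / 100 - (1 / 2) ^ T) =
      (∑ r : {y : X // y ≠ x} → Blk B,
        rest J x r * ∑ p ∈ sec1 P x r ×ˢ sec2 Q x r, mu0 p) / 100 - (1 / 2) ^ T := by
    have h4 : ∀ r : {y : X // y ≠ x} → Blk B,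
        rest J x r * ((∑ p ∈ sec1 P x r ×ˢ sec2 Q x r, mu0 p) / 100 - (1 / 2) ^ T) =
        (rest J x r * ∑ p ∈ sec1 P x r ×ˢ sec2 Q x r, mu0 p) / 100 -
          rest J x r * (1 / 2) ^ T := fun r => by ring
    rw [Finset.sum_congr rfl fun r _ => h4 r, Finset.sum_sub_distrib, ← Finset.sum_mul,
      sum_rest hMUP J x, one_mul, Finset.sum_div]
  rw [h3] at h2
  exact h2

end

theorem pf_CRX (hCOR : T_COR) (hMUP : T_MUP) : T_CRX := by
  intro X B _ _ _ _ _ N f J x T hf hx hT
  obtain ⟨ι, _, w, P, Q, hw, hN, hfS⟩ := hf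
  have hE : ∀ K : Finset X, Ex K f = ∑ t, w t * Ex K (ind (P t) (Q t)) := by
    intro K
    unfold Ex
    rw [Finset.sum_congr rfl fun t _ => Finset.mul_sum _ _ _, Finset.sum_comm]
    refine Finset.sum_congr rfl fun S _ => ?_
    rw [hfS S, Finset.mul_sum]
    refine Finset.sum_congr rfl fun t _ => ?_
    unfold ind
    ring
  have h1 : ∀ t, w t * (Ex J (ind (P t) (Q t)) / 100 - (1 / 2) ^ T) ≤
      w t * Ex (insert x J) (ind (P t) (Q t)) := fun t =>
    mul_le_mul_of_nonneg_left (one_rect hCOR hMUP (P t) (Q t) J x T hx hT) (hw t)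
  have h2 := Finset.sum_le_sum fun t (_ : t ∈ Finset.univ) => h1 t
  rw [← hE] at h2
  have h3 : ∑ t, w t * (Ex J (ind (P t) (Q t)) / 100 - (1 / 2) ^ T) =
      Ex J f / 100 - (∑ t, w t) * (1 / 2) ^ T := by
    rw [hE J, Finset.sum_mul, Finset.sum_div, ← Finset.sum_sub_distrib]
    exact Finset.sum_congr rfl fun t _ => by ring
  rw [h3] at h2
  have h4 : (∑ t, w t) * (1 / 2) ^ T ≤ N * (1 / 2 : ℝ) ^ T :=
    mul_le_mul_of_nonneg_right hN (by positivity)
  linarith

end Pool.Agent.H75.ALG
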