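import Pool.Agent.H10.ALG.Targets

/-!
# MP_64fb07_lc: board `alg_modules`, row ENT (large families of sets are biased for few elements)
-/

set_option autoImplicit false

namespace Pool.Agent.H75.ALG

open Pool.Agent.H10.ALG

section

variable {B : Type} [DecidableEq B]

/-- number of the small subsets of a finite set -/
theorem small_card (Q : Finset B) :
    (Q.powerset.filter fun u => 5 * u.card ≤ Q.card).card ^ 5 ≤ 16 ^ Q.card := by
  set c := (Q.powerset.filter fun u => 5 * u.card ≤ Q.card).card with hc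
  set q := Q.card with hq
  have h1 : ∑ u ∈ Q.powerset, 4 ^ (q - u.card) = 5 ^ q := by
    have h := Finset.sum_pow_mul_eq_add_pow 1 4 Q
    simp only [one_pow, one_mul] at h
    exact h
  have h2 : c * 4 ^ (q - q / 5) ≤ 5 ^ q := by
    rw [← h1]
    calc c * 4 ^ (q - q / 5) =
          ∑ u ∈ Q.powerset.filter (fun u => 5 * u.card ≤ q), 4 ^ (q - q / 5) := by
          rw [Finset.sum_const, smul_eq_mul]
      _ ≤ ∑ u ∈ Q.powerset.filter (fun u => 5 * u.card ≤ q), 4 ^ (q - u.card) := by
          refine Finset.sum_le_sum fun u hu => Nat.pow_le_pow_right (by norm_num) ?_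
          have := (Finset.mem_filter.1 hu).2
          omega
      _ ≤ ∑ u ∈ Q.powerset, 4 ^ (q - u.card) :=
          Finset.sum_le_sum_of_subset (Finset.filter_subset _ _)
  have h3 : c ^ 5 * 256 ^ q ≤ 16 ^ q * 256 ^ q := by
    calc c ^ 5 * 256 ^ q = c ^ 5 * 4 ^ (4 * q) := by
          rw [pow_mul]; norm_num
      _ ≤ c ^ 5 * 4 ^ (5 * (q - q / 5)) := by
          refine Nat.mul_le_mul_left _ (Nat.pow_le_pow_right (by norm_num) ?_)
          omega
      _ = (c * 4 ^ (q - q / 5)) ^ 5 := by
          rw [mul_pow, ← pow_mul, Nat.mul_comm 5]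
      _ ≤ (5 ^ q) ^ 5 := Nat.pow_le_pow_left h2 5
      _ = 3125 ^ q := by
          rw [← pow_mul, Nat.mul_comm q 5, pow_mul]; norm_num
      _ ≤ 4096 ^ q := Nat.pow_le_pow_left (by norm_num) q
      _ = 16 ^ q * 256 ^ q := by
          rw [← mul_pow]; norm_num
  exact Nat.le_of_mul_le_mul_right h3 (by positivity)

/-- the first half -/
theorem ent_one (D : Finset B) (A : Finset (Finset B)) (T : ℕ) (hA : ∀ a ∈ A, a ⊆ D)
    (hT : 2 ^ D.card ≤ 2 ^ T * A.card) :
    (D.filter fun i => 10 * (A.filter fun a => i ∈ a).card < A.card).card ≤ 5 * T + 5 := by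
  set Q := D.filter fun i => 10 * (A.filter fun a => i ∈ a).card < A.card with hQ
  rcases Nat.eq_zero_or_pos Q.card with h0 | h0
  · omega
  have hQD : Q ⊆ D := Finset.filter_subset _ _
  have hqd : Q.card ≤ D.card := Finset.card_le_card hQD
  have hdc : ∑ a ∈ A, (a ∩ Q).card = ∑ i ∈ Q, (A.filter fun a => i ∈ a).card := by
    have h1 : ∀ a ∈ A, (a ∩ Q).card = ∑ i ∈ Q, if i ∈ a then 1 else 0 := by
      intro a _
      rw [← Finset.card_filter, Finset.inter_comm, Finset.filter_mem_eq_inter]
    rw [Finset.sum_congr rfl h1, Finset.sum_comm]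
    refine Finset.sum_congr rfl fun i _ => ?_
    rw [Finset.card_filter]
  have hup : 10 * ∑ a ∈ A, (a ∩ Q).card ≤ Q.card * A.card := by
    rw [hdc, Finset.mul_sum, ← smul_eq_mul, ← Finset.sum_const]
    exact Finset.sum_le_sum fun i hi => (Finset.mem_filter.1 hi).2.le
  set A1 := A.filter fun a => Q.card < 5 * (a ∩ Q).card with hA1
  set A2 := A.filter fun a => ¬ Q.card < 5 * (a ∩ Q).card with hA2
  have hcard : A1.card + A2.card = A.card := Finset.card_filter_add_card_filter_not _
  have hA1c : Q.card * A1.card ≤ 5 * ∑ a ∈ A, (a ∩ Q).card := by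
    calc Q.card * A1.card = ∑ a ∈ A1, Q.card := by
          rw [Finset.sum_const, smul_eq_mul, Nat.mul_comm]
      _ ≤ ∑ a ∈ A1, 5 * (a ∩ Q).card :=
          Finset.sum_le_sum fun a ha => (Finset.mem_filter.1 ha).2.le
      _ ≤ ∑ a ∈ A, 5 * (a ∩ Q).card :=
          Finset.sum_le_sum_of_subset (Finset.filter_subset _ _)
      _ = 5 * ∑ a ∈ A, (a ∩ Q).card := by rw [Finset.mul_sum]
  have hA1h : 2 * A1.card ≤ A.card := by
    have h1 : Q.card * (2 * A1.card) ≤ Q.card * A.card := by
      calc Q.card * (2 * A1.card) = 2 * (Q.card * A1.card) := by ring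
        _ ≤ 2 * (5 * ∑ a ∈ A, (a ∩ Q).card) := Nat.mul_le_mul_left _ hA1c
        _ = 10 * ∑ a ∈ A, (a ∩ Q).card := by ring
        _ ≤ Q.card * A.card := hup
    exact Nat.le_of_mul_le_mul_left h1 h0
  have hA2h : A.card ≤ 2 * A2.card := by omega
  set c := (Q.powerset.filter fun u => 5 * u.card ≤ Q.card).card with hc
  have hA2c : A2.card ≤ c * 2 ^ (D.card - Q.card) := by
    have h1 : c * 2 ^ (D.card - Q.card) =
        ((Q.powerset.filter fun u => 5 * u.card ≤ Q.card) ×ˢ (D \ Q).powerset).card := by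
      rw [Finset.card_product, Finset.card_powerset, Finset.card_sdiff_of_subset hQD]
    rw [h1]
    refine Finset.card_le_card_of_injOn (fun a => (a ∩ Q, a \ Q)) ?_ ?_
    · intro a ha
      have ha' := Finset.mem_filter.1 (Finset.mem_coe.1 ha)
      refine Finset.mem_coe.2 (Finset.mem_product.2 ⟨Finset.mem_filter.2 ⟨?_, ?_⟩, ?_⟩)
      · exact Finset.mem_powerset.2 Finset.inter_subset_right
      · exact not_lt.1 ha'.2
      · exact Finset.mem_powerset.2 (Finset.sdiff_subset_sdiff (hA a ha'.1) (le_refl _))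
    · intro a _ b _ hab
      have h2 := congrArg Prod.fst hab
      have h3 := congrArg Prod.snd hab
      simp only at h2 h3
      rw [← Finset.sdiff_union_inter a Q, ← Finset.sdiff_union_inter b Q, h2, h3]
  have hfin : 2 ^ (5 * D.card) ≤ 2 ^ (5 * T + 5 + 5 * (D.card - Q.card) + 4 * Q.card) := by
    calc 2 ^ (5 * D.card) = (2 ^ D.card) ^ 5 := by rw [← pow_mul, Nat.mul_comm]
      _ ≤ (2 ^ T * (2 * (c * 2 ^ (D.card - Q.card)))) ^ 5 := by
          refine Nat.pow_le_pow_left (hT.trans (Nat.mul_le_mul_left _ ?_)) 5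
          exact hA2h.trans (Nat.mul_le_mul_left _ hA2c)
      _ = 2 ^ (5 * T) * 2 ^ 5 * 2 ^ (5 * (D.card - Q.card)) * c ^ 5 := by
          rw [mul_pow, mul_pow, mul_pow, ← pow_mul, ← pow_mul, Nat.mul_comm T 5,
            Nat.mul_comm (D.card - Q.card) 5]
          ring
      _ ≤ 2 ^ (5 * T) * 2 ^ 5 * 2 ^ (5 * (D.card - Q.card)) * 16 ^ Q.card :=
          Nat.mul_le_mul_left _ (small_card Q)
      _ = 2 ^ (5 * T + 5 + 5 * (D.card - Q.card) + 4 * Q.card) := by
          rw [pow_add, pow_add, pow_add, pow_mul 2 4 Q.card]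
          norm_num
  have hexp := (Nat.pow_le_pow_iff_right (by norm_num)).1 hfin
  omega

end

theorem pf_ENT : T_ENT := by
  intro B _ D A T hA hT
  refine ⟨ent_one D A T hA hT, ?_⟩
  have hinj : Set.InjOn (fun a => D \ a) (A : Set (Finset B)) := by
    intro a ha b hb hab
    have h1 : D \ (D \ a) = D \ (D \ b) := by
      have : D \ a = D \ b := hab
      rw [this]
    rwa [Finset.sdiff_sdiff_eq_self (hA a ha), Finset.sdiff_sdiff_eq_self (hA b hb)] at h1
  have hcard : (A.image fun a => D \ a).card = A.card := Finset.card_image_of_injOn hinj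
  have h := ent_one D (A.image fun a => D \ a) T
    (by
      intro a ha
      obtain ⟨b, _, rfl⟩ := Finset.mem_image.1 ha
      exact Finset.sdiff_subset) (by rw [hcard]; exact hT)
  have heq : (D.filter fun i => 10 * (A.filter fun a => i ∉ a).card < A.card) =
      D.filter fun i => 10 * ((A.image fun a => D \ a).filter fun a => i ∈ a).card <
        (A.image fun a => D \ a).card := by
    refine Finset.filter_congr fun i hi => ?_
    have h1 : ((A.image fun a => D \ a).filter fun a => i ∈ a) =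
        (A.filter fun a => i ∉ a).image fun a => D \ a := by
      rw [Finset.filter_image]
      refine congrArg _ (Finset.filter_congr fun a _ => ?_)
      rw [Finset.mem_sdiff]
      exact ⟨fun h => h.2, fun h => ⟨hi, h⟩⟩
    rw [h1, hcard, Finset.card_image_of_injOn (hinj.mono ?_)]
    intro a ha
    exact (Finset.mem_filter.1 (Finset.mem_coe.1 ha)).1
  rw [heq]
  exact h

end Pool.Agent.H75.ALG
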